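import Mathlib
import Pool.Agent.H135R2.VS.Der

/-!
# Ultraproducts and derivations: constancy of the Jacobian
-/

set_option autoImplicit false

open Filter MvPolynomial

namespace Pool.Agent.Q190.HX

/-- The ultrapower of a field. -/
theorem exists_ultra (𝒱 : Ultrafilter ℕ) (K : Type) [Field K] :
    ∃ (Ω : Type) (_ : Field Ω) (_ : Algebra K Ω) (φ : (ℕ → K) →ₐ[K] Ω),
      Function.Surjective φ ∧ ∀ f, φ f = 0 ↔ ∀ᶠ n in (𝒱 : Filter ℕ), f n = 0 := by
  let I : Ideal (ℕ → K) :=
    { carrier := {f | ∀ᶠ n in (𝒱 : Filter ℕ), f n = 0}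
      add_mem' := by
        intro f g hf hg
        filter_upwards [hf, hg] with n h1 h2
        rw [Pi.add_apply, h1, h2, add_zero]
      zero_mem' := Eventually.of_forall (fun n => rfl)
      smul_mem' := by
        intro c f hf
        filter_upwards [hf] with n h1
        rw [smul_eq_mul, Pi.mul_apply, h1, mul_zero] }
  have hI : ∀ f, f ∈ I ↔ ∀ᶠ n in (𝒱 : Filter ℕ), f n = 0 := fun f => Iff.rfl
  have : I.IsMaximal := by
    rw [Ideal.isMaximal_iff]
    constructor
    · intro h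
      have h1 := (hI _).mp h
      obtain ⟨n, hn⟩ := h1.exists
      exact one_ne_zero hn
    · intro J f hIJ hf hfJ
      have h1 : ∀ᶠ n in (𝒱 : Filter ℕ), f n ≠ 0 := by
        have := (Ultrafilter.eventually_not (f := 𝒱) (p := fun n => f n = 0)).mpr
          (fun h => hf ((hI f).mpr h))
        exact this
      have h2 : (1 : ℕ → K) - (fun n => (f n)⁻¹) * f ∈ J := by
        apply hIJ
        rw [hI]
        filter_upwards [h1] with n hn
        simp [hn]
      have h3 : (1 : ℕ → K) = (1 - (fun n => (f n)⁻¹) * f) + (fun n => (f n)⁻¹) * f := by ring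
      rw [h3]
      exact J.add_mem h2 (J.mul_mem_left _ hfJ)
  refine ⟨(ℕ → K) ⧸ I, Ideal.Quotient.field I, inferInstance, Ideal.Quotient.mkₐ K I,
    Ideal.Quotient.mkₐ_surjective K I, fun f => ?_⟩
  rw [Ideal.Quotient.mkₐ_eq_mk]
  exact Ideal.Quotient.eq_zero_iff_mem

/-- An ultrafilter containing the sets where nonzero polynomials do not vanish. -/
theorem exists_uf {K : Type} [Field K] (x : ℕ → K)
    (h : ∀ p : MvPolynomial (Fin 2) K, (∀ n, aeval ![x n, x (n + 1)] p = 0) → p = 0) :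
    ∃ 𝒱 : Ultrafilter ℕ, ∀ p : MvPolynomial (Fin 2) K, p ≠ 0 →
      ∀ᶠ n in (𝒱 : Filter ℕ), aeval ![x n, x (n + 1)] p ≠ 0 := by
  set A : {p : MvPolynomial (Fin 2) K // p ≠ 0} → Filter ℕ :=
    fun p => 𝓟 {n | aeval ![x n, x (n + 1)] p.1 ≠ 0} with hA
  have : Nonempty {p : MvPolynomial (Fin 2) K // p ≠ 0} := ⟨⟨1, one_ne_zero⟩⟩
  have hne : (⨅ p, A p).NeBot := by
    refine iInf_neBot_of_directed ?_ ?_
    · intro p q
      refine ⟨⟨p.1 * q.1, mul_ne_zero p.2 q.2⟩, ?_, ?_⟩
      · simp only [hA]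
        refine principal_mono.mpr (fun n hn => ?_)
        intro h0
        apply hn
        rw [map_mul, h0, zero_mul]
      · simp only [hA]
        refine principal_mono.mpr (fun n hn => ?_)
        intro h0
        apply hn
        rw [map_mul, h0, mul_zero]
    · intro p
      simp only [hA]
      rw [principal_neBot_iff]
      by_contra hcon
      rw [Set.not_nonempty_iff_eq_empty] at hcon
      apply p.2
      apply h
      intro n
      by_contra hn
      have : n ∈ {n | aeval ![x n, x (n + 1)] p.1 ≠ 0} := hn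
      rw [hcon] at this
      exact this
  refine ⟨@Ultrafilter.of _ _ hne, fun p hp => ?_⟩
  have h1 : ((@Ultrafilter.of _ _ hne : Ultrafilter ℕ) : Filter ℕ) ≤ A ⟨p, hp⟩ :=
    (@Ultrafilter.of_le _ _ hne).trans (iInf_le _ _)
  exact h1 (mem_principal_self _)

section core

variable {k K Ω : Type} [Field k] [Field K] [Algebra k K] [Field Ω] [Algebra K Ω]
  (φ : (ℕ → K) →ₐ[K] Ω)

/-- germs with values in `k` -/
def lf (a : ℕ → k) : ℕ → K := fun n => algebraMap k K (a n)

/-- The subring of the germs with values in `k`. -/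
def GG (k : Type) [Field k] [Algebra k K] : Subring Ω where
  carrier := {y | ∃ a : ℕ → k, φ (lf a) = y}
  mul_mem' := by
    rintro _ _ ⟨a, rfl⟩ ⟨b, rfl⟩
    refine ⟨a * b, ?_⟩
    rw [← map_mul]
    congr 1
    ext n
    simp [lf]
  one_mem' := ⟨1, by
    have : (lf (1 : ℕ → k) : ℕ → K) = 1 := by ext n; simp [lf]
    rw [this, map_one]⟩
  add_mem' := by
    rintro _ _ ⟨a, rfl⟩ ⟨b, rfl⟩
    refine ⟨a + b, ?_⟩
    rw [← map_add]
    congr 1
    ext n
    simp [lf]
  zero_mem' := ⟨0, by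
    have : (lf (0 : ℕ → k) : ℕ → K) = 0 := by ext n; simp [lf]
    rw [this, map_zero]⟩
  neg_mem' := by
    rintro _ ⟨a, rfl⟩
    refine ⟨-a, ?_⟩
    rw [← map_neg]
    congr 1
    ext n
    simp [lf]

lemma mem_GG {y : Ω} : y ∈ GG φ k ↔ ∃ a : ℕ → k, φ (lf a) = y := Iff.rfl

lemma const_eq (c : K) : φ (fun _ => c) = algebraMap K Ω c := by
  have : (fun _ : ℕ => c) = algebraMap K (ℕ → K) c := rfl
  rw [this, AlgHom.commutes]

/-- linear disjointness -/
theorem lin_disj {𝒱 : Filter ℕ} [𝒱.NeBot] (hφ : ∀ f, φ f = 0 ↔ ∀ᶠ n in 𝒱, f n = 0)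
    (b : ℕ → K) (hb : LinearIndependent k b) :
    LinearIndependent (GG φ k) (fun j => algebraMap K Ω (b j)) := by
  classical
  rw [linearIndependent_iff']
  intro s g hg j hj
  have hrep : ∀ j, ∃ a : ℕ → k, φ (lf a) = (g j : Ω) := fun j => (g j).2
  choose a ha using hrep
  have h1 : φ (∑ j ∈ s, lf (a j) * fun _ => b j) = 0 := by
    rw [map_sum, ← hg]
    refine Finset.sum_congr rfl (fun i _ => ?_)
    rw [map_mul, ha, const_eq]
    rfl
  rw [hφ] at h1
  have h2 : ∀ᶠ n in 𝒱, a j n = 0 := by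
    filter_upwards [h1] with n hn
    have h3 : ∑ i ∈ s, a i n • b i = 0 := by
      rw [← hn, Finset.sum_apply]
      refine Finset.sum_congr rfl (fun i _ => ?_)
      rw [Algebra.smul_def]
      rfl
    exact linearIndependent_iff'.mp hb s (fun i => a i n) h3 j hj
  have h4 : φ (lf (a j)) = 0 := by
    rw [hφ]
    filter_upwards [h2] with n hn
    simp [lf, hn]
  rw [ha] at h4
  exact Subtype.ext h4

end core

end Pool.Agent.Q190.HX
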