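import Mathlib
import Pool.Agent.Q190.HX.HjacA
import Pool.Agent.Q256.HX.Stm

/-!
# An orbit in a finite dimensional space over the constants has constant Jacobian
-/

set_option autoImplicit false

open Filter MvPolynomial

namespace Pool.Agent.Q190.HX

section core

variable {k K Ω : Type} [Field k] [Field K] [Algebra k K] [Field Ω] [Algebra K Ω]
  (φ : (ℕ → K) →ₐ[K] Ω)

/-- the projection of a germ -/
noncomputable def prj (π : K →ₗ[k] k) (f : ℕ → K) : Ω := φ (lf (fun n => π (f n)))

lemma const_mem_GG (c : k) : algebraMap K Ω (algebraMap k K c) ∈ GG φ k := by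
  rw [mem_GG]
  refine ⟨fun _ => c, ?_⟩
  rw [← const_eq φ]
  rfl

/-- the subring of the elements of `GG` whose derivatives are in `N0`, `N1` -/
def SS (D : Fin 2 → Derivation K Ω Ω) (N : Fin 2 → Submodule (GG φ k) Ω) : Subring Ω where
  carrier := {s | s ∈ GG φ k ∧ ∀ a, D a s ∈ N a}
  mul_mem' := by
    rintro s t ⟨hs, hs'⟩ ⟨ht, ht'⟩
    refine ⟨(GG φ k).mul_mem hs ht, fun a => ?_⟩
    rw [Derivation.leibniz]
    exact (N a).add_mem ((N a).smul_mem (⟨s, hs⟩ : GG φ k) (ht' a))
      ((N a).smul_mem (⟨t, ht⟩ : GG φ k) (hs' a))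
  one_mem' := ⟨(GG φ k).one_mem, fun a => by rw [Derivation.map_one_eq_zero]; exact (N a).zero_mem⟩
  add_mem' := by
    rintro s t ⟨hs, hs'⟩ ⟨ht, ht'⟩
    exact ⟨(GG φ k).add_mem hs ht, fun a => by rw [map_add]; exact (N a).add_mem (hs' a) (ht' a)⟩
  zero_mem' := ⟨(GG φ k).zero_mem, fun a => by rw [map_zero]; exact (N a).zero_mem⟩
  neg_mem' := by
    rintro s ⟨hs, hs'⟩
    exact ⟨(GG φ k).neg_mem hs, fun a => by rw [map_neg]; exact (N a).neg_mem (hs' a)⟩

lemma mem_SS {D : Fin 2 → Derivation K Ω Ω} {N : Fin 2 → Submodule (GG φ k) Ω} {s : Ω} :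
    s ∈ SS φ D N ↔ s ∈ GG φ k ∧ ∀ a, D a s ∈ N a := Iff.rfl

lemma const_mem_SS (D : Fin 2 → Derivation K Ω Ω) (N : Fin 2 → Submodule (GG φ k) Ω) (c : k) :
    algebraMap K Ω (algebraMap k K c) ∈ SS φ D N :=
  ⟨const_mem_GG φ c, fun a => by rw [Derivation.map_algebraMap]; exact (N a).zero_mem⟩

/-- well-definedness of the projection -/
lemma prj_congr {𝒱 : Filter ℕ} (hφ : ∀ f, φ f = 0 ↔ ∀ᶠ n in 𝒱, f n = 0) (π : K →ₗ[k] k)
    (f g : ℕ → K) (h : φ f = φ g) : prj φ π f = prj φ π g := by
  have h1 : φ (f - g) = 0 := by rw [map_sub, h, sub_self]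
  rw [hφ] at h1
  unfold prj
  rw [← sub_eq_zero, ← map_sub, hφ]
  filter_upwards [h1] with n hn
  have : f n = g n := sub_eq_zero.mp hn
  simp [lf, this]

/-- the elements of the span of the constants over `SS` have projections in `SS` -/
lemma prj_mem {𝒱 : Filter ℕ} (hφ : ∀ f, φ f = 0 ↔ ∀ᶠ n in 𝒱, f n = 0)
    (hs : Function.Surjective φ) (D : Fin 2 → Derivation K Ω Ω)
    (N : Fin 2 → Submodule (GG φ k) Ω) (y : Ω)
    (hy : y ∈ Submodule.span (SS φ D N) (Set.range (algebraMap K Ω))) (π : K →ₗ[k] k) :
    ∀ f : ℕ → K, φ f = y → prj φ π f ∈ SS φ D N := by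
  induction hy using Submodule.span_induction with
  | mem y h =>
    intro f hf
    obtain ⟨c, rfl⟩ := h
    rw [prj_congr φ hφ π f (fun _ => c) (by rw [hf, const_eq])]
    have : prj φ π (fun _ => c) = algebraMap K Ω (algebraMap k K (π c)) := by
      unfold prj
      rw [← const_eq φ]
      rfl
    rw [this]
    exact const_mem_SS φ D N _
  | zero =>
    intro f hf
    rw [prj_congr φ hφ π f 0 (by rw [hf, map_zero])]
    have : prj φ π (0 : ℕ → K) = 0 := by
      unfold prj
      have : (lf (fun n => π ((0 : ℕ → K) n)) : ℕ → K) = 0 := by ext n; simp [lf]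
      rw [this, map_zero]
    rw [this]
    exact (SS φ D N).zero_mem
  | add y z _ _ hy hz =>
    intro f hf
    obtain ⟨f1, h1⟩ := hs y
    obtain ⟨f2, h2⟩ := hs z
    rw [prj_congr φ hφ π f (f1 + f2) (by rw [hf, map_add, h1, h2])]
    have : prj φ π (f1 + f2) = prj φ π f1 + prj φ π f2 := by
      unfold prj
      rw [← map_add]
      congr 1
      ext n
      simp [lf]
    rw [this]
    exact (SS φ D N).add_mem (hy f1 h1) (hz f2 h2)
  | smul s y _ hy =>
    intro f hf
    obtain ⟨f1, h1⟩ := hs y
    obtain ⟨a, ha⟩ := s.2.1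
    have hsy : φ f = φ (lf a * f1) := by
      rw [hf, map_mul, ha, h1]; rfl
    rw [prj_congr φ hφ π f (lf a * f1) hsy]
    have : prj φ π (lf a * f1) = (s : Ω) * prj φ π f1 := by
      unfold prj
      rw [← ha, ← map_mul]
      congr 1
      ext n
      simp only [lf, Pi.mul_apply]
      rw [← Algebra.smul_def, map_smul, smul_eq_mul, map_mul]
    rw [this]
    exact (SS φ D N).mul_mem s.2 (hy f1 h1)

/-- the span of the constants over a subring is closed under multiplication -/
lemma span_mul (S : Subring Ω) {y z : Ω}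
    (hy : y ∈ Submodule.span S (Set.range (algebraMap K Ω)))
    (hz : z ∈ Submodule.span S (Set.range (algebraMap K Ω))) :
    y * z ∈ Submodule.span S (Set.range (algebraMap K Ω)) := by
  induction hy using Submodule.span_induction with
  | mem y h =>
    obtain ⟨c, rfl⟩ := h
    induction hz using Submodule.span_induction with
    | mem z h =>
      obtain ⟨d, rfl⟩ := h
      rw [← map_mul]
      exact Submodule.subset_span ⟨_, rfl⟩
    | zero => rw [mul_zero]; exact Submodule.zero_mem _
    | add z z' _ _ h h' => rw [mul_add]; exact Submodule.add_mem _ h h'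
    | smul s z _ h =>
      have : algebraMap K Ω c * (s • z) = s • (algebraMap K Ω c * z) := by
        change algebraMap K Ω c * ((s : Ω) * z) = (s : Ω) * (algebraMap K Ω c * z)
        ring
      rw [this]
      exact Submodule.smul_mem _ _ h
  | zero => rw [zero_mul]; exact Submodule.zero_mem _
  | add y y' _ _ h h' => rw [add_mul]; exact Submodule.add_mem _ h h'
  | smul s y _ h =>
    have : (s • y) * z = s • (y * z) := by
      change ((s : Ω) * y) * z = (s : Ω) * (y * z)
      ring
    rw [this]
    exact Submodule.smul_mem _ _ h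

lemma span_const (S : Subring Ω) (c : K) :
    algebraMap K Ω c ∈ Submodule.span S (Set.range (algebraMap K Ω)) :=
  Submodule.subset_span ⟨c, rfl⟩

lemma span_aeval (S : Subring Ω) {y : Ω}
    (hy : y ∈ Submodule.span S (Set.range (algebraMap K Ω))) (F : Polynomial K) :
    Polynomial.aeval y F ∈ Submodule.span S (Set.range (algebraMap K Ω)) := by
  have hpow : ∀ n : ℕ, y ^ n ∈ Submodule.span S (Set.range (algebraMap K Ω)) := by
    intro n
    induction n with
    | zero =>
      rw [pow_zero, ← map_one (algebraMap K Ω)]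
      exact span_const S 1
    | succ n ih => rw [pow_succ]; exact span_mul S ih hy
  rw [Polynomial.aeval_eq_sum_range]
  refine Submodule.sum_mem _ (fun i _ => ?_)
  rw [Algebra.smul_def]
  exact span_mul S (span_const S _) (hpow i)

lemma span_S (S : Subring Ω) {y : Ω} (hy : y ∈ S) :
    y ∈ Submodule.span S (Set.range (algebraMap K Ω)) := by
  have h := Submodule.smul_mem (Submodule.span S (Set.range (algebraMap K Ω))) (⟨y, hy⟩ : S)
    (span_const (K := K) S 1)
  have h2 : (⟨y, hy⟩ : S) • algebraMap K Ω 1 = y := by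
    change y * algebraMap K Ω 1 = y
    rw [map_one, mul_one]
  rw [h2] at h
  exact h

end core

theorem hjac : Pool.Agent.Q256.HX.S_hjac := by
  intro k K _ _ _ _ L hL F δ x hxL hrec hcurve
  have : CharZero K := charZero_of_injective_algebraMap (algebraMap k K).injective
  obtain ⟨𝒱, h𝒱⟩ := exists_uf x hcurve
  obtain ⟨Ω, _, _, φ, hsurj, hφ⟩ := exists_ultra 𝒱 K
  -- the germs of the orbit
  set X : ℕ → Ω := fun j => φ (fun n => x (n + j)) with hX
  have hXrec : ∀ j, X (j + 2) = Polynomial.aeval (X (j + 1)) F - algebraMap K Ω δ * X j := by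
    intro j
    have h1 : (fun n => x (n + (j + 2))) =
        Polynomial.aeval (fun n => x (n + (j + 1))) F - (fun _ => δ) * fun n => x (n + j) := by
      ext n
      rw [Pi.sub_apply, Pi.mul_apply]
      have h2 := hrec (n + j)
      have h3 : (Polynomial.aeval (fun n => x (n + (j + 1))) F : ℕ → K) n =
          F.eval (x (n + (j + 1))) := by
        have := (Polynomial.aeval_algHom_apply (Pi.evalAlgHom K (fun _ : ℕ => K) n)
          (fun n => x (n + (j + 1))) F)
        rw [← Polynomial.coe_aeval_eq_eval]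
        exact this.symm
      rw [h3]
      exact h2
    simp only [hX]
    rw [h1, map_sub, map_mul, const_eq, Polynomial.aeval_algHom_apply]
  have hind : AlgebraicIndependent K ![X 0, X 1] := by
    rw [algebraicIndependent_iff]
    intro p hp
    by_contra hne
    have h1 : aeval ![X 0, X 1] p = φ (fun n => aeval ![x n, x (n + 1)] p) := by
      have h2 : (fun n => aeval ![x n, x (n + 1)] p) =
          aeval ![(fun n => x n), (fun n => x (n + 1))] p := by
        ext n
        have h3 : (aeval ![(fun n => x n), (fun n => x (n + 1))] p : ℕ → K) n =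
            Pi.evalAlgHom K (fun _ : ℕ => K) n (aeval ![(fun n => x n), (fun n => x (n + 1))] p) :=
          rfl
        rw [h3, MvPolynomial.comp_aeval_apply]
        congr 2
        ext i
        fin_cases i <;> rfl
      rw [h2, MvPolynomial.comp_aeval_apply]
      congr 2
      ext i
      fin_cases i <;> rfl
    rw [h1, hφ] at hp
    obtain ⟨n, h4, h5⟩ := (hp.and (h𝒱 p hne)).exists
    exact h5 h4
  -- the derivations
  obtain ⟨D0, hD0⟩ := Pool.Agent.H135R2.VS.exists_der hind ![1, 0]
  obtain ⟨D1, hD1⟩ := Pool.Agent.H135R2.VS.exists_der hind ![0, 1]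
  have d00 : D0 (X 0) = 1 := hD0 0
  have d01 : D0 (X 1) = 0 := hD0 1
  have d10 : D1 (X 0) = 0 := hD1 0
  have d11 : D1 (X 1) = 1 := hD1 1
  -- coordinates
  set q := Module.finrank k L with hq
  set B := Module.finBasis k L with hB
  have hπ : ∀ i : Fin q, ∃ π : K →ₗ[k] k, ∀ l : L, π (l : K) = B.coord i l := by
    intro i
    obtain ⟨g, hg⟩ := LinearMap.exists_extend (B.coord i)
    exact ⟨g, fun l => by rw [← hg]; rfl⟩
  choose π hπ using hπ
  have hdec : ∀ n, x n = ∑ i, algebraMap k K (π i (x n)) * (B i : K) := by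
    intro n
    have h1 := B.sum_repr ⟨x n, hxL n⟩
    have h2 : x n = ((∑ i, (B.repr ⟨x n, hxL n⟩) i • B i : L) : K) := by rw [h1]
    refine h2.trans ?_
    rw [Submodule.coe_sum]
    refine Finset.sum_congr rfl (fun i _ => ?_)
    rw [Submodule.coe_smul, Algebra.smul_def]
    congr 2
    exact (hπ i ⟨x n, hxL n⟩).symm
  -- projections of the germs
  set lam : Fin q → ℕ → Ω := fun i j => prj φ (π i) (fun n => x (n + j)) with hlam
  have hXdec : ∀ j, X j = ∑ i, lam i j * algebraMap K Ω (B i : K) := by
    intro j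
    have h1 : (fun n => x (n + j)) =
        ∑ i, lf (fun n => π i (x (n + j))) * (fun _ : ℕ => (B i : K)) := by
      ext n
      rw [Finset.sum_apply]
      exact hdec (n + j)
    simp only [hX, hlam, prj]
    conv_lhs => rw [h1]
    rw [map_sum]
    refine Finset.sum_congr rfl (fun i _ => ?_)
    rw [map_mul, const_eq]
  have hlamG : ∀ i j, lam i j ∈ GG φ k := fun i j => ⟨_, rfl⟩
  set D : Fin 2 → Derivation K Ω Ω := ![D0, D1] with hD
  set N : Fin 2 → Submodule (GG φ k) Ω := fun a =>
    Submodule.span (GG φ k) (Set.range (fun m : Fin q × Fin 2 => D a (lam m.1 m.2))) with hN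
  have hlam01 : ∀ i (b : Fin 2), lam i b ∈ SS φ D N := by
    intro i b
    exact ⟨hlamG i b, fun a => Submodule.subset_span ⟨(i, b), rfl⟩⟩
  have hXT : ∀ j, X j ∈ Submodule.span (SS φ D N) (Set.range (algebraMap K Ω)) ∧
      X (j + 1) ∈ Submodule.span (SS φ D N) (Set.range (algebraMap K Ω)) := by
    intro j
    induction j with
    | zero =>
      constructor
      · rw [hXdec]
        exact Submodule.sum_mem _ (fun i _ => span_mul _ (span_S _ (hlam01 i 0)) (span_const _ _))
      · rw [hXdec]
        exact Submodule.sum_mem _ (fun i _ => span_mul _ (span_S _ (hlam01 i 1)) (span_const _ _))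
    | succ j ih =>
      refine ⟨ih.2, ?_⟩
      rw [show j + 1 + 1 = j + 2 from rfl, hXrec]
      exact Submodule.sub_mem _ (span_aeval _ ih.2 F) (span_mul _ (span_const _ _) ih.1)
  have hlamS : ∀ i j, lam i j ∈ SS φ D N := fun i j =>
    prj_mem φ hφ hsurj D N (X j) (hXT j).1 (π i) _ rfl
  -- the derivatives of the germs
  set P : Submodule (GG φ k) Ω :=
    Submodule.span (GG φ k) (Set.range (fun i : Fin q => algebraMap K Ω (B i : K))) with hP
  have hDX : ∀ a j, D a (X j) ∈ P * N a := by
    intro a j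
    rw [hXdec, map_sum]
    refine Submodule.sum_mem _ (fun i _ => ?_)
    rw [Derivation.leibniz, Derivation.map_algebraMap, smul_zero, zero_add, smul_eq_mul]
    exact Submodule.mul_mem_mul (Submodule.subset_span ⟨i, rfl⟩) ((hlamS i j).2 a)
  set W : ℕ → Ω := fun j => D0 (X j) * D1 (X (j + 1)) - D0 (X (j + 1)) * D1 (X j) with hW
  have hWmem : ∀ j, W j ∈ (P * N 0) * (P * N 1) := by
    intro j
    exact Submodule.sub_mem _ (Submodule.mul_mem_mul (hDX 0 j) (hDX 1 (j + 1)))
      (Submodule.mul_mem_mul (hDX 0 (j + 1)) (hDX 1 j))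
  have hDrec : ∀ (E : Derivation K Ω Ω) j, E (X (j + 2)) =
      Polynomial.aeval (X (j + 1)) (Polynomial.derivative F) * E (X (j + 1)) -
        algebraMap K Ω δ * E (X j) := by
    intro E j
    rw [hXrec, map_sub, Derivation.leibniz, Derivation.map_algebraMap, smul_zero, add_zero,
      smul_eq_mul]
    congr 1
    exact Derivation.map_aeval _ _ _
  have hWval : ∀ j, W j = algebraMap K Ω (δ ^ j) := by
    intro j
    induction j with
    | zero =>
      simp only [hW]
      rw [d00, d11, d01, pow_zero, map_one]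
      ring
    | succ j ih =>
      simp only [hW] at ih ⊢
      rw [pow_succ, map_mul, ← ih, show j + 1 + 1 = j + 2 from rfl, hDrec D1, hDrec D0]
      ring
  -- finiteness
  have hfg : ((P * N 0) * (P * N 1)).FG := by
    have hPf : P.FG := Submodule.fg_span (Set.finite_range _)
    have hNf : ∀ a, (N a).FG := fun a => Submodule.fg_span (Set.finite_range _)
    exact (hPf.mul (hNf 0)).mul (hPf.mul (hNf 1))
  by_contra htr
  have htr' : Transcendental k δ := htr
  have hli : LinearIndependent k (fun j : ℕ => δ ^ j) := by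
    have h1 : Function.Injective (Polynomial.aeval (R := k) δ) :=
      transcendental_iff_injective.mp htr'
    have h2 := (Polynomial.basisMonomials k).linearIndependent
    rw [Polynomial.coe_basisMonomials] at h2
    have h3 := h2.map' (Polynomial.aeval (R := k) δ).toLinearMap
      (LinearMap.ker_eq_bot.mpr h1)
    have h4 : (fun j : ℕ => δ ^ j) = (Polynomial.aeval (R := k) δ).toLinearMap ∘
        fun s : ℕ => Polynomial.monomial s (1 : k) := by
      ext1 j
      simp [Polynomial.aeval_monomial]
    rw [h4]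
    exact h3
  have hld := lin_disj φ hφ (fun j : ℕ => δ ^ j) hli
  have hmem : ∀ j : ℕ, algebraMap K Ω (δ ^ j) ∈ (P * N 0) * (P * N 1) := fun j => by
    rw [← hWval]; exact hWmem j
  have : Module.Finite (GG φ k) ↥((P * N 0) * (P * N 1)) := Module.Finite.iff_fg.mpr hfg
  have hld2 : LinearIndependent (GG φ k)
      (fun j : ℕ => (⟨algebraMap K Ω (δ ^ j), hmem j⟩ : ↥((P * N 0) * (P * N 1)))) := by
    refine LinearIndependent.of_comp ((P * N 0) * (P * N 1)).subtype ?_
    exact hld
  have hcard := hld2.cardinal_le_rank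
  have hlt := Module.rank_lt_aleph0 (GG φ k) ↥((P * N 0) * (P * N 1))
  rw [Cardinal.mk_nat] at hcard
  exact absurd (lt_of_le_of_lt hcard hlt) (lt_irrefl _)

end Pool.Agent.Q190.HX
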