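import Mathlib
import Pool.Agent.TH450.FG.G
import Pool.Agent.Q256.HX.Stm

/-!
# Finite dimensional Riemann–Roch spaces for families of places with product formula
-/

set_option autoImplicit false

open Polynomial IntermediateField

namespace Pool.Agent.Q190.HX

open Pool.Agent.TH450.FG (PF)

/-- finiteness of the extension -/
theorem fin_dim (k K : Type) [Field k] [Field K] [Algebra k K]
    (hFG : (⊤ : IntermediateField k K).FG) (t : K)
    (ht : Algebra.IsAlgebraic (IntermediateField.adjoin k {t}) K) :
    FiniteDimensional (IntermediateField.adjoin k {t}) K := by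
  have h1 : Algebra.EssFiniteType k K := IntermediateField.fg_top_iff.mp hFG
  have h2 : Algebra.EssFiniteType (IntermediateField.adjoin k {t}) K :=
    Algebra.EssFiniteType.of_comp k _ K
  obtain ⟨T, hT⟩ := IntermediateField.fg_top (IntermediateField.adjoin k {t}) K
  have h3 : FiniteDimensional (IntermediateField.adjoin k {t})
      (IntermediateField.adjoin (IntermediateField.adjoin k {t}) (T : Set K)) :=
    IntermediateField.finiteDimensional_adjoin
      fun z _ => (ht.isAlgebraic z).isIntegral
  rw [hT] at h3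
  exact Module.Finite.equiv
    (IntermediateField.topEquiv (F := IntermediateField.adjoin k {t}) (E := K)).toLinearEquiv

/-- linear relations over the polynomials in `π` -/
theorem rel_poly (k K : Type) [Field k] [Field K] [Algebra k K] (π : K)
    [FiniteDimensional (IntermediateField.adjoin k {π}) K] (n : ℕ)
    (hn : Module.finrank (IntermediateField.adjoin k {π}) K < n) (z : Fin n → K) :
    ∃ f : Fin n → k[X], (∃ i, f i ≠ 0) ∧ ∑ i, aeval π (f i) * z i = 0 := by
  classical
  set E := IntermediateField.adjoin k {π} with hE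
  have hdep : ¬ LinearIndependent E z := by
    intro h
    have := h.fintype_card_le_finrank
    rw [Fintype.card_fin] at this
    omega
  rw [Fintype.not_linearIndependent_iff] at hdep
  obtain ⟨g, hg, i0, hi0⟩ := hdep
  have hrep : ∀ i, ∃ a b : k[X], aeval π b ≠ 0 ∧ (g i : K) = aeval π a / aeval π b := by
    intro i
    obtain ⟨a, b, h⟩ := (IntermediateField.mem_adjoin_simple_iff k (g i : K)).mp (g i).2
    by_cases hb : aeval π b = 0
    · refine ⟨0, 1, by simp, ?_⟩
      rw [h, hb, div_zero]
      simp
    · exact ⟨a, b, hb, h⟩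
  choose a b hb hab using hrep
  refine ⟨fun i => a i * ∏ j ∈ Finset.univ.erase i, b j, ⟨i0, ?_⟩, ?_⟩
  · intro h0
    have h1 := congrArg (aeval π) h0
    rw [map_mul, map_prod, map_zero, mul_eq_zero] at h1
    rcases h1 with h1 | h1
    · apply hi0
      have h2 := hab i0
      rw [h1, zero_div] at h2
      exact Subtype.ext h2
    · exact (Finset.prod_ne_zero_iff.mpr (fun j _ => hb j)) h1
  · have h3 : ∀ i, aeval π (a i * ∏ j ∈ Finset.univ.erase i, b j) * z i =
        (∏ j, aeval π (b j)) * ((g i : K) * z i) := by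
      intro i
      rw [← Finset.mul_prod_erase Finset.univ (fun j => aeval π (b j)) (Finset.mem_univ i), hab i,
        map_mul, map_prod]
      have := hb i
      field_simp
    simp_rw [h3]
    rw [← Finset.mul_sum]
    have h4 : ∑ i, (g i : K) * z i = 0 := by
      rw [← hg]
      rfl
    rw [h4, mul_zero]

/-- removing common factors `X` -/
theorem rel_red (k K : Type) [Field k] [Field K] [Algebra k K] (π : K) (hπ : π ≠ 0) (n : ℕ)
    (z : Fin n → K) (m : ℕ) : ∀ f : Fin n → k[X], ∑ i, aeval π (f i) * z i = 0 →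
    (∃ i, f i ≠ 0 ∧ (f i).natDegree = m) →
    ∃ g : Fin n → k[X], ∑ i, aeval π (g i) * z i = 0 ∧ ∃ i, (g i).coeff 0 ≠ 0 := by
  induction m with
  | zero =>
    rintro f h ⟨i, hi, hm⟩
    refine ⟨f, h, i, ?_⟩
    intro hc
    apply hi
    rw [eq_C_of_natDegree_eq_zero hm, hc, C_0]
  | succ m ih =>
    rintro f h ⟨i, hi, hm⟩
    by_cases hex : ∃ i, (f i).coeff 0 ≠ 0
    · exact ⟨f, h, hex⟩
    · push Not at hex
      have hdiv : ∀ i, X * (f i).divX = f i := fun i => by
        have := divX_mul_X_add (f i)
        rw [hex i, C_0, add_zero, mul_comm] at this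
        exact this
      refine ih (fun i => (f i).divX) ?_ ⟨i, ?_, ?_⟩
      · have h1 : ∑ i, aeval π (f i) * z i = π * ∑ i, aeval π ((f i).divX) * z i := by
          rw [Finset.mul_sum]
          refine Finset.sum_congr rfl (fun j _ => ?_)
          conv_lhs => rw [← hdiv j]
          rw [map_mul, aeval_X, mul_assoc]
        rw [h1] at h
        exact (mul_eq_zero.mp h).resolve_left hπ
      · intro h0
        apply hi
        rw [← hdiv i, h0, mul_zero]
      · rw [natDegree_divX_eq_natDegree_tsub_one, hm]
        rfl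

section val

variable {k K : Type} [Field k] [Field K] [Algebra k K] (V : AbsoluteValue K ℝ)
  (hna : IsNonarchimedean V) (htriv : ∀ c : k, c ≠ 0 → V (algebraMap k K c) = 1)

/-- the elements of absolute value at most `r` -/
def MM (r : ℝ) (hr : 0 ≤ r) : Submodule k K where
  carrier := {z | V z ≤ r}
  add_mem' := by
    intro x y hx hy
    exact (hna x y).trans (max_le hx hy)
  zero_mem' := by
    change V 0 ≤ r
    rw [map_zero]; exact hr
  smul_mem' := by
    intro c x hx
    change V (c • x) ≤ r
    by_cases hc : c = 0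
    · rw [hc, zero_smul, map_zero]; exact hr
    · rw [Algebra.smul_def, map_mul, htriv c hc, one_mul]; exact hx

lemma mem_MM {r : ℝ} {hr : 0 ≤ r} {z : K} : z ∈ MM (k := k) V hna htriv r hr ↔ V z ≤ r := Iff.rfl

include hna htriv in
lemma V_aeval (π : K) (hπ : V π ≤ 1) (f : k[X]) : V (aeval π f) ≤ 1 := by
  induction f using Polynomial.induction_on' with
  | add p q hp hq =>
    rw [map_add]
    exact (hna _ _).trans (max_le hp hq)
  | monomial n a =>
    rw [aeval_monomial, map_mul, map_pow]
    have h1 : V (algebraMap k K a) ≤ 1 := by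
      by_cases ha : a = 0
      · rw [ha, map_zero, map_zero]; exact zero_le_one
      · rw [htriv a ha]
    have h2 : V π ^ n ≤ 1 := pow_le_one₀ (V.nonneg _) hπ
    have h3 := V.nonneg (algebraMap k K a)
    have h4 : 0 ≤ V π ^ n := pow_nonneg (V.nonneg _) n
    nlinarith

/-- one step of the filtration -/
theorem stepA (π : K) (hπ0 : π ≠ 0) (hπ : V π ≤ 1)
    [FiniteDimensional (IntermediateField.adjoin k {π}) K] (r : ℝ) (hr : 0 ≤ r)
    (S : Submodule k K) [FiniteDimensional k S] (hS : S ≤ MM (k := k) V hna htriv r hr) :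
    Module.finrank k S ≤ Module.finrank (IntermediateField.adjoin k {π}) K +
      Module.finrank k ↥(S ⊓ MM (k := k) V hna htriv (r * V π) (mul_nonneg hr (V.nonneg _))) := by
  set d := Module.finrank (IntermediateField.adjoin k {π}) K with hd
  set M1 := MM (k := k) V hna htriv (r * V π) (mul_nonneg hr (V.nonneg _)) with hM1
  set S1 : Submodule k S := M1.comap S.subtype with hS1
  have hfr : Module.finrank k ↥(S ⊓ M1) = Module.finrank k S1 := by
    have h1 : S1.map S.subtype = S ⊓ M1 := by
      rw [hS1, Submodule.map_comap_subtype]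
    rw [← h1]
    exact (Submodule.equivMapOfInjective S.subtype S.injective_subtype S1).finrank_eq.symm
  rw [hfr, ← Submodule.finrank_quotient_add_finrank S1]
  gcongr
  by_contra hcon
  push Not at hcon
  obtain ⟨w, hw⟩ := exists_linearIndependent_of_le_finrank (R := k) (M := S ⧸ S1) (n := d + 1) hcon
  have hlift : ∀ i, ∃ z : S, S1.mkQ z = w i := fun i => S1.mkQ_surjective (w i)
  choose z hz using hlift
  obtain ⟨f, ⟨i0, hi0⟩, hf⟩ := rel_poly k K π (d + 1) (by omega) (fun i => (z i : K))
  obtain ⟨g, hg, i1, hi1⟩ := rel_red k K π hπ0 (d + 1) (fun i => (z i : K)) _ f hf ⟨i0, hi0, rfl⟩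
  have hcomb : ∑ i, (g i).coeff 0 • z i ∈ S1 := by
    rw [hS1, Submodule.mem_comap]
    change (((∑ i, (g i).coeff 0 • z i : S)) : K) ∈ M1
    have h2 : (((∑ i, (g i).coeff 0 • z i : S)) : K) =
        ∑ i, -(π * (aeval π ((g i).divX) * (z i : K))) := by
      rw [Submodule.coe_sum]
      have h3 : ∑ i, (((g i).coeff 0 • z i : S) : K) - ∑ i, aeval π (g i) * (z i : K) =
          ∑ i, -(π * (aeval π ((g i).divX) * (z i : K))) := by
        rw [← Finset.sum_sub_distrib]
        refine Finset.sum_congr rfl (fun i _ => ?_)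
        have h4 := congrArg (aeval π) (divX_mul_X_add (g i))
        rw [map_add, map_mul, aeval_X, aeval_C] at h4
        rw [← h4, Submodule.coe_smul, Algebra.smul_def]
        ring
      rw [hg, sub_zero] at h3
      exact h3
    rw [h2]
    refine Submodule.sum_mem _ (fun i _ => Submodule.neg_mem _ ?_)
    rw [hM1, mem_MM, map_mul, map_mul]
    have h5 : V (z i : K) ≤ r := hS (z i).2
    have h6 := V_aeval V hna htriv π hπ ((g i).divX)
    have h7 := V.nonneg (z i : K)
    have h8 := V.nonneg (aeval π ((g i).divX))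
    have h9 : V (aeval π (g i).divX) * V (z i : K) ≤ r := by nlinarith
    have h10 := V.nonneg π
    nlinarith
  have h11 : ∑ i, (g i).coeff 0 • w i = 0 := by
    simp_rw [← hz]
    rw [← (Submodule.Quotient.mk_eq_zero S1).mpr hcomb]
    rw [← Submodule.mkQ_apply, map_sum]
    simp_rw [map_smul]
  exact hi1 (Fintype.linearIndependent_iff.mp hw (fun i => (g i).coeff 0) h11 i1)

theorem stepB (π : K) (hπ0 : π ≠ 0) (hπ : V π ≤ 1)
    [FiniteDimensional (IntermediateField.adjoin k {π}) K] (j : ℕ) :
    ∀ (r : ℝ) (hr : 0 ≤ r) (S : Submodule k K) [FiniteDimensional k S],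
      S ≤ MM (k := k) V hna htriv r hr → (∀ z ∈ S, V z ≤ r * V π ^ j → z = 0) →
      Module.finrank k S ≤ j * Module.finrank (IntermediateField.adjoin k {π}) K := by
  induction j with
  | zero =>
    intro r hr S _ hS h0
    have h1 : S = ⊥ := by
      rw [eq_bot_iff]
      intro z hz
      rw [Submodule.mem_bot]
      refine h0 z hz ?_
      rw [pow_zero, mul_one]
      exact hS hz
    rw [h1, finrank_bot]
    exact Nat.zero_le _
  | succ j ih =>
    intro r hr S _ hS h0
    have h1 := stepA V hna htriv π hπ0 hπ r hr S hS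
    have h2 := ih (r * V π) (mul_nonneg hr (V.nonneg _))
      (S ⊓ MM (k := k) V hna htriv (r * V π) (mul_nonneg hr (V.nonneg _))) inf_le_right
      (fun z hz h => h0 z hz.1 (by rw [pow_succ']; linarith [h, mul_assoc r (V π) (V π ^ j)]))
    calc Module.finrank k S ≤ _ := h1
      _ ≤ Module.finrank (IntermediateField.adjoin k {π}) K +
          j * Module.finrank (IntermediateField.adjoin k {π}) K := by gcongr
      _ = (j + 1) * Module.finrank (IntermediateField.adjoin k {π}) K := by ring

end val

theorem adj_inv (k K : Type) [Field k] [Field K] [Algebra k K] (t : K) :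
    IntermediateField.adjoin k {t⁻¹} = IntermediateField.adjoin k {t} := by
  apply le_antisymm
  · rw [IntermediateField.adjoin_le_iff, Set.singleton_subset_iff]
    exact inv_mem (IntermediateField.mem_adjoin_simple_self k t)
  · rw [IntermediateField.adjoin_le_iff, Set.singleton_subset_iff]
    have := inv_mem (IntermediateField.mem_adjoin_simple_self k t⁻¹)
    rw [inv_inv] at this
    exact this

/-- Every family of places with product formula has finite dimensional Riemann–Roch spaces. -/
theorem fin_RR (k K : Type) [Field k] [Field K] [Algebra k K]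
    (hFG : (⊤ : IntermediateField k K).FG) (t : K) (ht : Transcendental k t)
    (halg : Algebra.IsAlgebraic (IntermediateField.adjoin k {t}) K) (Q : PF.{0, 0, 0} k K)
    (c : Q.Pl → ℝ) (hc : {v | c v ≠ 1}.Finite) :
    ∃ L : Submodule k K, Module.Finite k L ∧ ∀ z : K, (∀ v, Q.V v z ≤ c v) → z ∈ L := by
  classical
  -- a place and a local parameter
  have ht0 : t ≠ 0 := by
    rintro rfl
    exact ht isAlgebraic_zero
  obtain ⟨v1, hv1⟩ : ∃ v, Q.V v t ≠ 1 := by
    by_contra hcon
    push Not at hcon
    exact ht (Q.const t ht0 hcon)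
  obtain ⟨π, hπ0, hπ1, hfd⟩ : ∃ π : K, π ≠ 0 ∧ Q.V v1 π < 1 ∧
      FiniteDimensional (IntermediateField.adjoin k {π}) K := by
    have h1 := fin_dim k K hFG t halg
    rcases lt_or_gt_of_ne hv1 with h | h
    · exact ⟨t, ht0, h, h1⟩
    · refine ⟨t⁻¹, inv_ne_zero ht0, ?_, ?_⟩
      · rw [map_inv₀]
        exact inv_lt_one_of_one_lt₀ h
      · rw [adj_inv k K t]; exact h1
  set c' : Q.Pl → ℝ := fun v => max (c v) 1 with hc'
  have hc'1 : ∀ v, 1 ≤ c' v := fun v => le_max_right _ _
  have hc'f : {v | c' v ≠ 1}.Finite := by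
    refine hc.subset (fun v hv h => hv ?_)
    simp only [hc', h, max_self]
  set B : Finset Q.Pl := hc'f.toFinset with hB
  have hBo : ∀ v, v ∉ B → c' v = 1 := by
    intro v hv
    by_contra h
    exact hv (by rw [hB, Set.Finite.mem_toFinset]; exact h)
  -- the space
  let L : Submodule k K := ⨅ v, MM (k := k) (Q.V v) (Q.na v) (Q.triv v) (c' v)
    (by have := hc'1 v; linarith)
  have hL : ∀ z, z ∈ L ↔ ∀ v, Q.V v z ≤ c' v := by
    intro z
    rw [Submodule.mem_iInf]
    rfl
  -- lower bound at `v1`
  set H : ℝ := ∑ v ∈ B, Q.wt v * Real.log (c' v) with hH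
  have hlow : ∀ z ∈ L, z ≠ 0 → Real.exp (-H / Q.wt v1) ≤ Q.V v1 z := by
    intro z hz hz0
    have hzL := (hL z).mp hz
    set S : Finset Q.Pl := insert v1 (B ∪ (Q.fin z hz0).toFinset) with hS
    have hprod := Q.prod z hz0 S (by
      intro v hv
      by_contra hne
      apply hv
      rw [hS, Finset.mem_insert, Finset.mem_union]
      exact Or.inr (Or.inr ((Set.Finite.mem_toFinset _).mpr hne)))
    have hv1S : v1 ∈ S := Finset.mem_insert_self _ _
    rw [← Finset.add_sum_erase S _ hv1S] at hprod
    have hle : ∑ v ∈ S.erase v1, Q.wt v * Real.log (Q.V v z) ≤ H := by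
      calc ∑ v ∈ S.erase v1, Q.wt v * Real.log (Q.V v z)
          ≤ ∑ v ∈ S.erase v1, Q.wt v * Real.log (c' v) := by
            refine Finset.sum_le_sum (fun v _ => ?_)
            have h1 : 0 < Q.V v z := (Q.V v).pos hz0
            have h2 := Real.log_le_log h1 (hzL v)
            have h3 := Q.wt_pos v
            gcongr
        _ ≤ ∑ v ∈ S, Q.wt v * Real.log (c' v) := by
            refine Finset.sum_le_sum_of_subset_of_nonneg (Finset.erase_subset _ _)
              (fun v _ _ => ?_)
            exact mul_nonneg (Q.wt_pos v).le (Real.log_nonneg (hc'1 v))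
        _ = H := by
            rw [hH]
            symm
            refine Finset.sum_subset (fun v hv => ?_) (fun v _ hv => ?_)
            · rw [hS, Finset.mem_insert, Finset.mem_union]
              exact Or.inr (Or.inl hv)
            · rw [hBo v hv, Real.log_one, mul_zero]
    have hlog : -H / Q.wt v1 ≤ Real.log (Q.V v1 z) := by
      rw [div_le_iff₀ (Q.wt_pos v1)]
      linarith
    have h1 : 0 < Q.V v1 z := (Q.V v1).pos hz0
    rw [← Real.exp_log h1]
    exact Real.exp_le_exp.mpr hlog
  -- choose the exponent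
  have hr : (0 : ℝ) ≤ c' v1 := by have := hc'1 v1; linarith
  obtain ⟨j, hj⟩ : ∃ j : ℕ, c' v1 * Q.V v1 π ^ j < Real.exp (-H / Q.wt v1) := by
    have h1 : Filter.Tendsto (fun j : ℕ => c' v1 * Q.V v1 π ^ j) Filter.atTop (nhds (c' v1 * 0)) :=
      (tendsto_pow_atTop_nhds_zero_of_lt_one ((Q.V v1).nonneg π) hπ1).const_mul _
    rw [mul_zero] at h1
    exact (h1.eventually (gt_mem_nhds (Real.exp_pos _))).exists
  have hbound : ∀ S : Submodule k K, FiniteDimensional k S → S ≤ L →
      Module.finrank k S ≤ j * Module.finrank (IntermediateField.adjoin k {π}) K := by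
    intro S hSf hSL
    refine stepB (Q.V v1) (Q.na v1) (Q.triv v1) π hπ0 hπ1.le j (c' v1) hr S ?_ ?_
    · intro z hz
      exact (hL z).mp (hSL hz) v1
    · intro z hz hzs
      by_contra hz0
      have := hlow z (hSL hz) hz0
      linarith
  refine ⟨L, ?_, ?_⟩
  · rw [← Module.rank_lt_aleph0_iff]
    have hrk : Module.rank k L ≤
        (j * Module.finrank (IntermediateField.adjoin k {π}) K : ℕ) := by
      refine rank_le (fun s hs => ?_)
      set S : Submodule k L := Submodule.span k (s : Set L) with hSdef
      have h1 : Module.finrank k S = s.card := finrank_span_finset_eq_card hs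
      have h2 : FiniteDimensional k S := FiniteDimensional.span_finset k s
      set S' : Submodule k K := S.map L.subtype with hS'
      have h3 : Module.finrank k S' = Module.finrank k S :=
        (Submodule.equivMapOfInjective L.subtype L.injective_subtype S).finrank_eq.symm
      have h4 : FiniteDimensional k S' :=
        Module.Finite.equiv (Submodule.equivMapOfInjective L.subtype L.injective_subtype S)
      rw [← h1, ← h3]
      refine hbound S' h4 ?_
      rintro _ ⟨z, _, rfl⟩
      exact z.2
    exact lt_of_le_of_lt hrk (Cardinal.natCast_lt_aleph0)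
  · intro z hz
    exact (hL z).mpr (fun v => (hz v).trans (le_max_left _ _))

theorem hpf : Pool.Agent.Q256.HX.S_hpf := by
  intro k K _ _ _ _ hFG t ht halg
  obtain ⟨Q⟩ := Pool.Agent.TH450.FG.exists_PF.{0, 0} k K hFG ⟨t, ht, halg⟩
  exact ⟨Q, fun c hc => fin_RR k K hFG t ht halg Q c hc⟩

end Pool.Agent.Q190.HX
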